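import Pool.Agent.Helper91.KZ.StS

namespace Pool.Agent.Helper41.KZ

open Pool.Agent.Helper91.KZ Polynomial TensorProduct

universe u

section

variable {E B K ι : Type u} [Field E] [Ring B] [Algebra E B] [Ring K] [Algebra E K] [DecidableEq ι]

lemma cs1_mulr (e : Module.Basis ι E B) (x : B ⊗[E] K) (c : K) (j : ι) :
    TensorProduct.equivFinsuppOfBasisLeft e (x * (1 ⊗ₜ c)) j =
      TensorProduct.equivFinsuppOfBasisLeft e x j * c := by
  induction x using TensorProduct.induction_on with
  | zero => simp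
  | tmul b k =>
    rw [Algebra.TensorProduct.tmul_mul_tmul, mul_one,
      TensorProduct.equivFinsuppOfBasisLeft_apply_tmul_apply,
      TensorProduct.equivFinsuppOfBasisLeft_apply_tmul_apply, smul_mul_assoc]
  | add x y hx hy =>
    rw [add_mul, map_add, Finsupp.add_apply, hx, hy, map_add, Finsupp.add_apply, add_mul]

lemma cs1_mull (e : Module.Basis ι E B) (x : B ⊗[E] K) (c : K) (j : ι) :
    TensorProduct.equivFinsuppOfBasisLeft e ((1 ⊗ₜ c) * x) j =
      c * TensorProduct.equivFinsuppOfBasisLeft e x j := by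
  induction x using TensorProduct.induction_on with
  | zero => simp
  | tmul b k =>
    rw [Algebra.TensorProduct.tmul_mul_tmul, one_mul,
      TensorProduct.equivFinsuppOfBasisLeft_apply_tmul_apply,
      TensorProduct.equivFinsuppOfBasisLeft_apply_tmul_apply, mul_smul_comm]
  | add x y hx hy =>
    rw [mul_add, map_add, Finsupp.add_apply, hx, hy, map_add, Finsupp.add_apply, mul_add]

/-- elements with central coefficients -/
lemma cs1_cen (e : Module.Basis ι E B)
    (hK : ∀ x : K, (∀ y : K, x * y = y * x) → ∃ a : E, algebraMap E K a = x)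
    (x : B ⊗[E] K) (h : ∀ c : K, x * (1 ⊗ₜ c) = (1 ⊗ₜ c) * x) :
    ∃ b : B, x = b ⊗ₜ[E] (1 : K) := by
  have h1 : ∀ j, ∃ a : E, algebraMap E K a = TensorProduct.equivFinsuppOfBasisLeft e x j := by
    intro j
    apply hK
    intro c
    rw [← cs1_mulr e x c j, ← cs1_mull e x c j, h c]
  choose f hf using h1
  refine ⟨∑ j ∈ (TensorProduct.equivFinsuppOfBasisLeft e x).support, f j • e j, ?_⟩
  apply (TensorProduct.equivFinsuppOfBasisLeft e).injective
  ext j
  rw [TensorProduct.equivFinsuppOfBasisLeft_apply_tmul_apply, map_sum, Finsupp.finsetSum_apply]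
  simp only [map_smul, Module.Basis.repr_self, Finsupp.smul_apply, Finsupp.single_apply, smul_eq_mul,
    mul_ite, mul_one, mul_zero]
  rw [Finset.sum_ite_eq']
  by_cases hj : j ∈ (TensorProduct.equivFinsuppOfBasisLeft e x).support
  · rw [if_pos hj, ← hf j, Algebra.algebraMap_eq_smul_one]
  · rw [if_neg hj, Finsupp.notMem_support_iff.mp hj, zero_smul]

lemma cs1_inj [Nontrivial K] (b : B) (h : b ⊗ₜ[E] (1 : K) = 0) : b = 0 := by
  classical
  set e := Module.Basis.ofVectorSpace E B
  apply e.repr.injective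
  ext j
  have h1 := TensorProduct.equivFinsuppOfBasisLeft_apply_tmul_apply e b (1 : K) j
  rw [h, map_zero, Finsupp.zero_apply] at h1
  rw [map_zero, Finsupp.zero_apply]
  by_contra hne
  have h2 : (e.repr b j)⁻¹ • (e.repr b j • (1 : K)) = 0 := by rw [← h1, smul_zero]
  rw [smul_smul, inv_mul_cancel₀ hne, one_smul] at h2
  exact one_ne_zero h2

lemma cs1_sim (hKs : IsSimpleRing K) (hBs : IsSimpleRing B)
    (hK : ∀ x : K, (∀ y : K, x * y = y * x) → ∃ a : E, algebraMap E K a = x) :
    IsSimpleRing (B ⊗[E] K) := by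
  classical
  have : Nontrivial K := inferInstance
  have : Nontrivial B := inferInstance
  set e := Module.Basis.ofVectorSpace E B
  set φ := TensorProduct.equivFinsuppOfBasisLeft (N := K) e
  have hnt : Nontrivial (B ⊗[E] K) := by
    refine ⟨⟨(1 : B) ⊗ₜ (1 : K), 0, fun h => ?_⟩⟩
    exact one_ne_zero (cs1_inj (K := K) (1 : B) h)
  refine ⟨{ exists_pair_ne := ?_, eq_bot_or_eq_top := ?_ }⟩
  · refine ⟨⊥, ⊤, fun h => ?_⟩
    have : (1 : B ⊗[E] K) ∈ (⊥ : TwoSidedIdeal (B ⊗[E] K)) := by rw [h]; trivial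
    rw [TwoSidedIdeal.mem_bot] at this
    exact one_ne_zero this
  · intro I
    by_cases hI : I = ⊥
    · exact Or.inl hI
    right
    have hex : ∃ n : ℕ, ∃ x ∈ I, x ≠ 0 ∧ (φ x).support.card = n := by
      by_contra hcon
      apply hI
      rw [eq_bot_iff]
      intro x hx
      rw [TwoSidedIdeal.mem_bot]
      by_contra hx0
      exact hcon ⟨_, x, hx, hx0, rfl⟩
    obtain ⟨x, hxI, hx0, hxn⟩ := Nat.find_spec hex
    have hmin : ∀ y ∈ I, (φ y).support.card < (φ x).support.card → y = 0 := by
      intro y hy hlt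
      by_contra hy0
      rw [hxn] at hlt
      exact Nat.find_min hex hlt ⟨y, hy, hy0, rfl⟩
    have hφx : φ x ≠ 0 := fun h => hx0 (φ.injective (by rw [h, map_zero]))
    obtain ⟨j0, hj0⟩ : ∃ j0, φ x j0 ≠ 0 := by
      by_contra hcon
      apply hφx
      ext j
      by_contra hj
      exact hcon ⟨j, hj⟩
    -- the coefficients at `j0`
    let J : TwoSidedIdeal K := TwoSidedIdeal.mk'
      {c | ∃ y ∈ I, (φ y).support ⊆ (φ x).support ∧ φ y j0 = c}
      ⟨0, I.zero_mem, by simp, by simp⟩
      (by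
        rintro a b ⟨y, hy, hys, rfl⟩ ⟨z, hz, hzs, rfl⟩
        refine ⟨y + z, I.add_mem hy hz, ?_, by rw [map_add, Finsupp.add_apply]⟩
        rw [map_add]
        exact Finsupp.support_add.trans (Finset.union_subset hys hzs))
      (by
        rintro a ⟨y, hy, hys, rfl⟩
        refine ⟨-y, I.neg_mem hy, ?_, by rw [map_neg, Finsupp.neg_apply]⟩
        rw [map_neg, Finsupp.support_neg]
        exact hys)
      (by
        rintro a b ⟨y, hy, hys, rfl⟩
        refine ⟨(1 ⊗ₜ a) * y, I.mul_mem_left _ _ hy, ?_, cs1_mull e y a j0⟩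
        intro j hj
        apply hys
        rw [Finsupp.mem_support_iff] at hj ⊢
        intro h0
        exact hj (by
          have := cs1_mull e y a j
          rw [this]
          change a * φ y j = 0
          rw [h0, mul_zero]))
      (by
        rintro a b ⟨y, hy, hys, rfl⟩
        refine ⟨y * (1 ⊗ₜ b), I.mul_mem_right _ _ hy, ?_, cs1_mulr e y b j0⟩
        intro j hj
        apply hys
        rw [Finsupp.mem_support_iff] at hj ⊢
        intro h0
        exact hj (by
          have := cs1_mulr e y b j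
          rw [this]
          change φ y j * b = 0
          rw [h0, zero_mul]))
    have hJmem : ∀ c : K, c ∈ J ↔ ∃ y ∈ I, (φ y).support ⊆ (φ x).support ∧ φ y j0 = c := by
      intro c
      exact TwoSidedIdeal.mem_mk' _ _ _ _ _ _ _
    have hJtop : J = ⊤ := by
      rcases hKs.simple.eq_bot_or_eq_top J with h | h
      · exfalso
        have : φ x j0 ∈ J := (hJmem _).mpr ⟨x, hxI, subset_rfl, rfl⟩
        rw [h, TwoSidedIdeal.mem_bot] at this
        exact hj0 this
      · exact h
    obtain ⟨y, hyI, hys, hy1⟩ := (hJmem 1).mp (by rw [hJtop]; trivial)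
    have hcomm : ∀ c : K, y * (1 ⊗ₜ c) = (1 ⊗ₜ c) * y := by
      intro c
      rw [← sub_eq_zero]
      apply hmin
      · exact I.sub_mem (I.mul_mem_right _ _ hyI) (I.mul_mem_left _ _ hyI)
      · apply Finset.card_lt_card
        refine (Finset.ssubset_iff_of_subset ?_).mpr ⟨j0, Finsupp.mem_support_iff.mpr hj0, ?_⟩
        · intro j hj
          apply hys
          rw [Finsupp.mem_support_iff] at hj ⊢
          intro h0
          apply hj
          rw [map_sub, Finsupp.sub_apply]
          have e1 := cs1_mulr e y c j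
          have e2 := cs1_mull e y c j
          change φ (y * (1 ⊗ₜ c)) j = φ y j * c at e1
          change φ ((1 ⊗ₜ c) * y) j = c * φ y j at e2
          rw [e1, e2, h0, zero_mul, mul_zero, sub_zero]
        · rw [Finsupp.notMem_support_iff, map_sub, Finsupp.sub_apply]
          have e1 := cs1_mulr e y c j0
          have e2 := cs1_mull e y c j0
          change φ (y * (1 ⊗ₜ c)) j0 = φ y j0 * c at e1
          change φ ((1 ⊗ₜ c) * y) j0 = c * φ y j0 at e2
          rw [e1, e2, hy1, one_mul, mul_one, sub_self]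
    obtain ⟨b, hb⟩ := cs1_cen e hK y hcomm
    have hb0 : b ≠ 0 := by
      intro h0
      rw [h0, zero_tmul] at hb
      rw [hb, map_zero, Finsupp.zero_apply] at hy1
      exact zero_ne_one hy1
    let L : TwoSidedIdeal B := TwoSidedIdeal.mk' {b | b ⊗ₜ[E] (1 : K) ∈ I}
      (by rw [Set.mem_ofPred_eq, zero_tmul]; exact I.zero_mem)
      (by
        intro a b ha hb
        rw [Set.mem_ofPred_eq, add_tmul]
        exact I.add_mem ha hb)
      (by
        intro a ha
        rw [Set.mem_ofPred_eq, neg_tmul]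
        exact I.neg_mem ha)
      (by
        intro a b hb
        rw [Set.mem_ofPred_eq]
        have : (a * b) ⊗ₜ[E] (1 : K) = (a ⊗ₜ 1) * (b ⊗ₜ 1) := by
          rw [Algebra.TensorProduct.tmul_mul_tmul, mul_one]
        rw [this]
        exact I.mul_mem_left _ _ hb)
      (by
        intro a b ha
        rw [Set.mem_ofPred_eq]
        have : (a * b) ⊗ₜ[E] (1 : K) = (a ⊗ₜ 1) * (b ⊗ₜ 1) := by
          rw [Algebra.TensorProduct.tmul_mul_tmul, mul_one]
        rw [this]
        exact I.mul_mem_right _ _ ha)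
    have hLmem : ∀ c : B, c ∈ L ↔ c ⊗ₜ[E] (1 : K) ∈ I := fun c =>
      TwoSidedIdeal.mem_mk' _ _ _ _ _ _ _
    have hLtop : L = ⊤ := by
      rcases hBs.simple.eq_bot_or_eq_top L with h | h
      · exfalso
        have : b ∈ L := (hLmem b).mpr (by rw [← hb]; exact hyI)
        rw [h, TwoSidedIdeal.mem_bot] at this
        exact hb0 this
      · exact h
    have h1 : (1 : B ⊗[E] K) ∈ I := (hLmem 1).mp (by rw [hLtop]; trivial)
    rw [eq_top_iff]
    intro z _
    have := I.mul_mem_left z 1 h1
    rwa [mul_one] at this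

lemma cs1_centre (hKs : IsSimpleRing K)
    (hK : ∀ x : K, (∀ y : K, x * y = y * x) → ∃ a : E, algebraMap E K a = x)
    (x : B ⊗[E] K) (h : ∀ y, x * y = y * x) :
    ∃ b : B, (∀ b' : B, b * b' = b' * b) ∧ x = b ⊗ₜ[E] (1 : K) := by
  classical
  have : Nontrivial K := inferInstance
  obtain ⟨b, hb⟩ := cs1_cen (Module.Basis.ofVectorSpace E B) hK x (fun c => h _)
  refine ⟨b, fun b' => ?_, hb⟩
  rw [← sub_eq_zero]
  apply cs1_inj (K := K) (E := E)
  rw [sub_tmul, sub_eq_zero]
  have := h (b' ⊗ₜ 1)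
  rw [hb, Algebra.TensorProduct.tmul_mul_tmul, Algebra.TensorProduct.tmul_mul_tmul, mul_one] at this
  exact this

end

theorem CS1 : ST_CS1.{u} := by
  intro E _
  constructor
  · intro K L _ _ _ _ hK hL
    have := hK.fin
    have := hL.fin
    refine ⟨cs1_sim hL.sim hK.sim hL.cen, inferInstance, ?_⟩
    intro x hx
    obtain ⟨b, hb, rfl⟩ := cs1_centre hL.sim hL.cen x hx
    obtain ⟨a, rfl⟩ := hK.cen b hb
    exact ⟨a, by rw [Algebra.TensorProduct.algebraMap_apply]⟩
  · intro K M _ _ _ _ hK
    have := hK.fin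
    refine ⟨cs1_sim hK.sim inferInstance hK.cen, inferInstance, ?_⟩
    intro x hx
    obtain ⟨b, hb, rfl⟩ := cs1_centre hK.sim hK.cen x hx
    exact ⟨b, by rw [Algebra.TensorProduct.algebraMap_apply]; rfl⟩

end Pool.Agent.Helper41.KZ
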