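import Pool.Agent.Helper91.KZ.StL

namespace Pool.Agent.Helper41.KZ

open Pool.Agent.Helper91.KZ Polynomial TensorProduct

universe u

/-- a Kummer generator with its automorphism -/
lemma kum_gen (W T : Type u) [Field W] [Field T] [Algebra W T] [IsGalois W T] [FiniteDimensional W T]
    (p : ℕ) (ω : W) (hp : p.Prime) (hω : IsPrimitiveRoot ω p) (hf : Module.finrank W T = p) :
    ∃ (α : T) (a : W) (σ : T ≃ₐ[W] T), α ^ p = algebraMap W T a ∧ α ≠ 0 ∧
      (minpoly W α).natDegree = p ∧ σ α = algebraMap W T ω * α ∧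
      (∀ t : T, σ t = t → ∃ b : W, algebraMap W T b = t) ∧ ∀ t, (σ ^ p) t = t := by
  have hcard : Nat.card Gal(T/W) = p := by rw [IsGalois.card_aut_eq_finrank, hf]
  have : Fact p.Prime := ⟨hp⟩
  have : IsCyclic Gal(T/W) := isCyclic_of_prime_card hcard
  have hne : (primitiveRoots (Module.finrank W T) W).Nonempty := by
    rw [hf]
    exact ⟨ω, (mem_primitiveRoots hp.pos).mpr hω⟩
  obtain ⟨α, hα, htop⟩ := exists_root_adjoin_eq_top_of_isCyclic (K := W) (L := T) hne
  rw [hf] at hα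
  obtain ⟨a, ha⟩ := hα
  have hint : IsIntegral W α := Algebra.IsIntegral.isIntegral α
  have hdeg : (minpoly W α).natDegree = p := by
    rw [← IntermediateField.adjoin.finrank hint, htop, IntermediateField.finrank_top', hf]
  have hα0 : α ≠ 0 := by
    rintro rfl
    rw [minpoly.zero, natDegree_X] at hdeg
    exact hp.one_lt.ne hdeg
  have hgen : ∀ τ : T ≃ₐ[W] T, τ α = α → τ = 1 := by
    intro τ hτ
    ext t
    have ht : t ∈ (IntermediateField.adjoin W {α} : IntermediateField W T) := by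
      rw [htop]; trivial
    have hle : IntermediateField.adjoin W {α} ≤ IntermediateField.fixedField (Subgroup.zpowers τ) := by
      rw [IntermediateField.adjoin_le_iff]
      intro z hz
      rw [Set.mem_singleton_iff] at hz
      subst hz
      rw [SetLike.mem_coe, IntermediateField.mem_fixedField_iff]
      intro g hg
      obtain ⟨n, rfl⟩ := Subgroup.mem_zpowers_iff.mp hg
      have hz : z ∈ MulAction.fixedBy T τ := hτ
      exact MulAction.fixedBy_subset_fixedBy_zpow T τ n hz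
    have := hle ht
    rw [IntermediateField.mem_fixedField_iff] at this
    exact this τ (Subgroup.mem_zpowers τ)
  obtain ⟨τ, hτ⟩ : ∃ τ : Gal(T/W), τ ≠ 1 := by
    by_contra hcon
    push Not at hcon
    have : Nat.card Gal(T/W) = 1 := by
      rw [Nat.card_eq_one_iff_unique]
      exact ⟨⟨fun a b => by rw [hcon a, hcon b]⟩, ⟨1⟩⟩
    rw [hcard] at this
    exact hp.one_lt.ne' this
  have hωT : IsPrimitiveRoot (algebraMap W T ω) p :=
    hω.map_of_injective (algebraMap W T).injective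
  have hpow : (τ α / α) ^ p = 1 := by
    rw [div_pow, ← map_pow, ← ha, τ.commutes, div_self]
    rw [ha]
    exact pow_ne_zero _ hα0
  have : NeZero p := ⟨hp.ne_zero⟩
  obtain ⟨k, hk, hk2⟩ := hωT.eq_pow_of_pow_eq_one hpow
  have hτα : τ α = algebraMap W T (ω ^ k) * α := by
    rw [map_pow, hk2, div_mul_cancel₀ _ hα0]
  have hcop : k.Coprime p := by
    rw [Nat.coprime_comm, hp.coprime_iff_not_dvd]
    intro hd
    apply hτ
    apply hgen
    obtain ⟨c, rfl⟩ := hd
    rw [hτα, pow_mul, hω.pow_eq_one, one_pow, map_one, one_mul]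
  have hprim : IsPrimitiveRoot (ω ^ k) p := hω.pow_of_coprime k hcop
  obtain ⟨l, hl, hl2⟩ := hprim.eq_pow_of_pow_eq_one hω.pow_eq_one
  have hσ : ∀ n : ℕ, (τ ^ n) α = algebraMap W T ((ω ^ k) ^ n) * α := by
    intro n
    induction n with
    | zero => simp
    | succ n ih =>
      rw [pow_succ', AlgEquiv.mul_apply, ih, map_mul, AlgEquiv.commutes, hτα, ← mul_assoc, ← map_mul,
        ← pow_succ]
  have hσα : (τ ^ l) α = algebraMap W T ω * α := by rw [hσ, hl2]
  have hσ1 : τ ^ l ≠ 1 := by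
    intro h
    rw [h, AlgEquiv.one_apply] at hσα
    have h1 : algebraMap W T ω = 1 := by
      apply mul_right_cancel₀ hα0
      rw [← hσα, one_mul]
    exact hωT.ne_one hp.one_lt h1
  refine ⟨α, a, τ ^ l, ha.symm, hα0, hdeg, hσα, ?_, ?_⟩
  · intro t ht
    have hfix : ∀ g : Gal(T/W), g t = t := by
      intro g
      have hg : g ∈ Subgroup.zpowers (τ ^ l) := mem_zpowers_of_prime_card hcard hσ1
      obtain ⟨n, rfl⟩ := Subgroup.mem_zpowers_iff.mp hg
      have hz : t ∈ MulAction.fixedBy T (τ ^ l) := ht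
      exact MulAction.fixedBy_subset_fixedBy_zpow T (τ ^ l) n hz
    obtain ⟨b, hb⟩ := (IsGalois.mem_range_algebraMap_iff_fixed t).mpr hfix
    exact ⟨b, hb⟩
  · intro t
    rw [← hcard, pow_card_eq_one', AlgEquiv.one_apply]

theorem KUM (hS : ST_SKN.{u}) (hC : ST_CEN.{u}) : ST_KUM.{u} := by
  intro W K T _ _ _ _ _ _ _ p ω hp hω hCD hf hT
  obtain ⟨i⟩ := hT
  have : FiniteDimensional W T := Module.finite_of_finrank_pos (by rw [hf]; exact hp.pos)
  obtain ⟨hDA, -, hfin, hrk⟩ := hCD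
  obtain ⟨α, a, σ, hα, hα0, hdeg, hσα, hfix, hσp⟩ := kum_gen W T p ω hp hω hf
  obtain ⟨y, hy0, hy⟩ := hS W K T i (i.comp (σ : T →ₐ[W] T)) hDA
  have hyi : ∀ m, y * i m = i (σ m) * y := hy
  have hypow : ∀ n : ℕ, ∀ m, y ^ n * i m = i ((σ ^ n) m) * y ^ n := by
    intro n
    induction n with
    | zero => intro m; simp
    | succ n ih =>
      intro m
      have h1 : σ ((σ ^ n) m) = (σ ^ (n + 1)) m := by rw [pow_succ' σ n, AlgEquiv.mul_apply]
      rw [pow_succ', mul_assoc, ih, ← mul_assoc, hyi, mul_assoc, h1]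
  obtain ⟨C, _, _, j, hj, hjm, hcen, hcor⟩ := hC W K T i hDA
  obtain ⟨-, hr0, ⟨φ⟩⟩ := hcor
  have hone : Module.finrank T C = 1 := by
    have h1 : Module.finrank T (T ⊗[W] K) = p ^ 2 := by
      rw [Module.finrank_baseChange, hrk]
    have h2 := φ.toLinearEquiv.finrank_eq
    rw [h1, Module.finrank_matrix, hf, Fintype.card_fin] at h2
    have h3 : p * p * Module.finrank T C = p * p * 1 := by rw [← h2]; ring
    exact Nat.eq_of_mul_eq_mul_left (Nat.mul_pos hp.pos hp.pos) h3
  have hsurj : ∀ c : C, ∃ t : T, algebraMap T C t = c := by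
    intro c
    obtain ⟨t, ht⟩ := (finrank_eq_one_iff_of_nonzero' (1 : C) one_ne_zero).mp hone c
    exact ⟨t, by rw [Algebra.algebraMap_eq_smul_one, ht]⟩
  obtain ⟨t0, ht0⟩ : ∃ t0 : T, i t0 = y ^ p := by
    obtain ⟨c, hc⟩ := (hcen (y ^ p)).mp (fun m => by rw [hypow, hσp])
    obtain ⟨t, ht⟩ := hsurj c
    exact ⟨t, by rw [← hc, ← ht, hjm]⟩
  have hinj : Function.Injective i := i.toRingHom.injective
  have hσt : σ t0 = t0 := by
    apply hinj
    apply mul_right_cancel₀ hy0
    rw [← hyi, ht0, ← pow_succ, ← pow_succ']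
  obtain ⟨b, hb⟩ := hfix t0 hσt
  refine ⟨i α, y, a, b, ?_, ?_, ?_, hy0, ?_, ?_⟩
  · rw [← map_pow, hα, i.commutes]
  · rw [← ht0, ← hb, i.commutes]
  · rw [hyi, hσα, map_mul, i.commutes, mul_assoc]
  · intro h
    exact hα0 (hinj (by rw [h, map_zero]))
  · rw [dg, minpoly.algHom_eq i hinj, hdeg]

end Pool.Agent.Helper41.KZ
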